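import Pool.Agent.Helper23.MC.Goals3
import Pool.Agent.Helper73.RR.RK

/-!
# Packet MC-RNZ: Rankin's parameter, with few smooth numbers
-/

set_option autoImplicit false

open Finset Filter Topology

open scoped Classical

namespace Pool.Agent.Helper46.MC

open Pool.Agent.Helper88.RR Pool.Agent.Helper88.LG
open Pool.Agent.Helper73.RR (ev log_le_half sq_le_exp)

theorem ev6 : ∀ᶠ w : ℕ in atTop, 4 * Real.log w ^ 6 ≤ w := by
  have h : ∀ᶠ x : ℝ in atTop, 4 * Real.log x ^ 6 ≤ x := by
    have h1 := (Real.isLittleO_pow_log_id_atTop (n := 6)).def (c := 1 / 4) (by norm_num)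
    filter_upwards [h1, eventually_ge_atTop 1] with x hx hx1
    have h2 : 0 ≤ Real.log x ^ 6 := by positivity
    rw [Real.norm_of_nonneg h2, id, Real.norm_of_nonneg (by linarith)] at hx
    linarith
  exact tendsto_natCast_atTop_atTop.eventually h

theorem rnz : Pool.Agent.Helper23.MC.StmtRNZ := by
  obtain ⟨C1, hC1, hSM⟩ := Pool.Agent.Helper31.LG.sm
  set C := max C1 1 with hCdef
  have hC1C : C1 ≤ C := le_max_left _ _
  have hC1' : 1 ≤ C := le_max_right _ _
  have hev1 : ∀ᶠ w : ℕ in atTop, 2 ≤ Real.log w :=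
    (Real.tendsto_log_atTop.comp tendsto_natCast_atTop_atTop).eventually_ge_atTop 2
  have hev2 := (Real.tendsto_log_atTop.comp
    (Real.tendsto_log_atTop.comp tendsto_natCast_atTop_atTop)).eventually (ev C)
  obtain ⟨w0, hw0⟩ := eventually_atTop.1 ((hev1.and hev2).and ((eventually_ge_atTop 2).and ev6))
  refine ⟨128, by norm_num, w0, fun w H hw hwH hH => ?_⟩
  obtain ⟨⟨hl1, hL1, hl3, hlC, hexp, hlog64⟩, hw2, hw6⟩ := hw0 w hw
  simp only [Function.comp_apply] at hL1 hl3 hlC hexp hlog64
  set l1 := Real.log w with hl1def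
  set L := Real.log l1 with hLdef
  set l3 := Real.log L with hl3def
  have hl10 : 0 < l1 := by linarith only [hl1]
  have hL0 : 0 < L := by linarith only [hL1]
  have hl30 : 0 < l3 := by linarith only [hl3]
  have hexpL : Real.exp L = l1 := Real.exp_log hl10
  have hw0' : (0 : ℝ) < w := by exact_mod_cast (by omega : 0 < w)
  have hexpl1 : Real.exp l1 = w := Real.exp_log hw0'
  rw [hexpL] at hexp
  have hH0 : (0 : ℝ) < H := by exact_mod_cast (by omega : 0 < H)
  have hl3L : l3 ≤ L := (log_le_half hL0).trans (by linarith only [hL1])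
  set u := 64 * L / l3 with hu
  have hu64 : 64 ≤ u := by rw [hu, le_div_iff₀ hl30]; linarith only [hl3L]
  have hu0 : 0 < u := by linarith only [hu64]
  have huL : u ≤ 64 * L := by rw [hu]; exact div_le_self (by positivity) hl3
  have hlogu1 : Real.log u ≤ L := (Real.log_le_log hu0 huL).trans hlog64
  have hlogu2 : l3 / 2 ≤ Real.log u := by
    rw [hu, Real.log_div (by positivity) hl30.ne', Real.log_mul (by norm_num) hL0.ne']
    have h1 := log_le_half hl30
    have h2 : 0 ≤ Real.log 64 := Real.log_nonneg (by norm_num)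
    linarith only [h1, h2]
  have hlogu3 : 4 * Real.log (8 * C) ≤ Real.log u := by linarith only [hlC, hlogu2]
  have hlogu4 : 1 ≤ Real.log u := by
    have h1 : Real.exp 1 ≤ u := by
      have := Real.exp_one_lt_d9
      linarith only [hu64, this]
    rwa [Real.le_log_iff_exp_le hu0]
  set v := l1 / u with hv
  have hv8 : 8 * L ≤ v := by
    rw [hv, le_div_iff₀ hu0]
    have : 8 * L * u ≤ 8 * L * (64 * L) := by gcongr
    nlinarith only [hexp, this]
  have hv0 : 0 < v := by linarith only [hL1, hv8]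
  have hvl : v ≤ l1 := by rw [hv]; exact div_le_self hl10.le (by linarith only [hu64])
  set t := ⌊Real.exp v⌋₊ with ht
  have htv : (t : ℝ) ≤ Real.exp v := Nat.floor_le (Real.exp_pos v).le
  have htv' : Real.exp (v / 2) ≤ t := by
    have h1 : Real.exp v - 1 ≤ t := (Nat.sub_one_lt_floor (Real.exp v)).le
    have h2 : Real.exp v = Real.exp (v / 2) ^ 2 := by
      rw [← Real.exp_nat_mul]; congr 1; push_cast; ring
    have h3 : v / 2 + 1 ≤ Real.exp (v / 2) := Real.add_one_le_exp _
    have h4 : 2 ≤ Real.exp (v / 2) := by linarith only [hL1, hv8, h3]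
    nlinarith only [hL1, hv8, h1, h2, h3]
  have ht2 : 2 ≤ t := by
    have h3 : v / 2 + 1 ≤ Real.exp (v / 2) := Real.add_one_le_exp _
    have h4 : (2 : ℝ) ≤ t := by linarith only [hL1, hv8, htv', h3]
    exact_mod_cast h4
  have htw : t ≤ w := by
    have h1 : (t : ℝ) ≤ w := by
      rw [← hexpl1]
      exact htv.trans (Real.exp_le_exp.2 hvl)
    exact_mod_cast h1
  have ht0 : (0 : ℝ) < t := by exact_mod_cast (by omega : 0 < t)
  have hlt1 : v / 2 ≤ Real.log t := (Real.le_log_iff_exp_le ht0).2 htv'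
  have hlt2 : Real.log t ≤ v := (Real.log_le_iff_le_exp ht0).2 htv
  have hlt0 : 0 < Real.log t := by linarith only [hL1, hv8, hlt1]
  have hlH1 : l1 ≤ Real.log H := Real.log_le_log hw0' (by exact_mod_cast hwH)
  have hlH2 : Real.log H ≤ l1 + 4 * L := by
    have h1 := Real.log_le_log hH0 hH
    rw [Real.log_mul hw0'.ne' (by positivity), Real.log_pow] at h1
    push_cast at h1
    exact h1
  -- smooth numbers
  set s := Real.log (u / (8 * C)) with hs
  have hsu : s = Real.log u - Real.log (8 * C) := Real.log_div hu0.ne' (by positivity)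
  have hC8 : 0 ≤ Real.log (8 * C) := Real.log_nonneg (by linarith only [hC1, hC1C, hC1'])
  have hs1 : 3 / 4 * Real.log u ≤ s := by rw [hsu]; linarith only [hlC, hlogu2]
  have hs2 : s ≤ Real.log u := by rw [hsu]; linarith only [hC8]
  have hs0 : 0 ≤ s := by linarith only [hl3, hlC, hlogu2, hsu]
  have hsm := hSM H t s ht2 (by omega) hs0 (by linarith only [hL1, hlogu1, hv8, hlt1, hsu, hC8])
  have hes : Real.exp s = u / (8 * C) := Real.exp_log (by positivity)
  have hexpo : C1 * Real.exp s - s * Real.log H / (2 * Real.log t) ≤ -(4 * L) := by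
    have h1 : C1 * Real.exp s ≤ u / 8 := by
      rw [hes]
      calc C1 * (u / (8 * C)) ≤ C * (u / (8 * C)) := by gcongr
        _ = u / 8 := by field_simp
    have h2 : s * u / 2 ≤ s * Real.log H / (2 * Real.log t) := by
      rw [div_le_div_iff₀ (by norm_num) (by positivity)]
      have h3 : u * Real.log t ≤ Real.log H := by
        calc u * Real.log t ≤ u * v := by gcongr
          _ = l1 := by rw [hv]; field_simp
          _ ≤ Real.log H := hlH1
      nlinarith only [h3, hl3, hlC, hlogu2, hsu]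
    have h3 : 3 / 8 * (u * Real.log u) ≤ s * u / 2 := by nlinarith only [hlC, hlogu2, hsu, hu64]
    have h4 : u ≤ u * Real.log u := le_mul_of_one_le_right hu0.le hlogu4
    have h5 : 32 * L ≤ u * Real.log u := by
      calc 32 * L = u * (l3 / 2) := by rw [hu]; field_simp; ring
        _ ≤ u * Real.log u := by gcongr
    linarith only [hu64, h1, h2, h3, h4, h5]
  have hsm2 : ((Sm H t).card : ℝ) ≤ H / l1 ^ 3 := by
    have h1 : Real.exp (C1 * Real.exp s - s * Real.log H / (2 * Real.log t)) ≤ 1 / (2 * l1 ^ 3) := by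
      refine (Real.exp_le_exp.2 hexpo).trans ?_
      have e1 : Real.exp (4 * L) = l1 ^ 4 := by
        rw [← hexpL, ← Real.exp_nat_mul]; push_cast; rfl
      rw [Real.exp_neg, e1, ← one_div]
      apply one_div_le_one_div_of_le (by positivity)
      have e2 : (0 : ℝ) < l1 ^ 3 := by positivity
      calc 2 * l1 ^ 3 ≤ l1 * l1 ^ 3 := by gcongr
        _ = l1 ^ 4 := by ring
    have h2 : Real.sqrt H ≤ H / (2 * l1 ^ 3) := by
      rw [le_div_iff₀ (by positivity)]
      have h3 : 2 * l1 ^ 3 ≤ Real.sqrt H := by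
        apply Real.le_sqrt_of_sq_le
        have h4 : (2 * l1 ^ 3) ^ 2 = 4 * l1 ^ 6 := by ring
        rw [h4]
        exact hw6.trans (by exact_mod_cast hwH)
      calc Real.sqrt H * (2 * l1 ^ 3) ≤ Real.sqrt H * Real.sqrt H := by gcongr
        _ = H := Real.mul_self_sqrt hH0.le
    calc ((Sm H t).card : ℝ) ≤ Real.sqrt H +
          H * Real.exp (C1 * Real.exp s - s * Real.log H / (2 * Real.log t)) := hsm
      _ ≤ H / (2 * l1 ^ 3) + H * (1 / (2 * l1 ^ 3)) := by gcongr
      _ = H / l1 ^ 3 := by field_simp; norm_num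
  have hexp4 : Real.log w ^ 4 ≤ (t : ℝ) := by
    refine le_trans ?_ htv'
    rw [← hl1def, ← hexpL, ← Real.exp_nat_mul]
    apply Real.exp_le_exp.2
    push_cast
    linarith only [hv8]
  refine ⟨t, ht2, htw, hexp4, ?_, ?_, ?_⟩
  · exact hsm2
  · refine le_trans ?_ hlt1
    have h1 : v / 2 = l1 * l3 / (128 * L) := by rw [hv, hu]; field_simp; norm_num
    rw [h1]
  · refine hlt2.trans ?_
    have h1 : v = l1 * l3 / (64 * L) := by rw [hv, hu]; field_simp
    rw [h1]
    apply div_le_div_of_nonneg_left (by positivity) (by positivity)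
    nlinarith only [hL1]

end Pool.Agent.Helper46.MC
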